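import Pool.Agent.H36.KM.Fin2

/-!
# The Sato–Tate conjecture for even-degree cohomology on average, for the disconnected groups of Kummer
surfaces and of other varieties built from hyperelliptic curves and their branch points

Let `f_i = ∑ c_{i,j} x^j`, `j = 0, …, d_i`, be polynomials of even degrees `d_i ≥ 4` with integral
coefficients, and let `C_i : y² = f_i(x)` be the curves of genus `g_i = (d_i - 2) / 2` (with the points at
infinity `y² = c_{i,d_i}`), for `i = 1, …, r`.  The `d_i` branch points of `C_i` are permuted by the Galois
group.  For a composition `μ_i` of `d_i` let `M^{μ_i}` be the permutation representation on the ordered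
partitions of type `μ_i` of the set of the branch points of `C_i`; every character of the symmetric group
`S_{d_i}` is an integral combination of the characters of the `M^{μ_i}`.  For `x = (t, μ)`,
`t_i ∈ {0, 1, 2, 3}`, let `W_x` be the tensor product of the `R_{t_i}(C_i) ⊗ M^{μ_i}`, where `R_0, …, R_3`
are the trivial representation, `Λ²H¹(C_i)(1)`, `Sym²H¹(C_i)(1)` and `H¹(C_i)(1/2)`.

In the general case the Sato–Tate group of the sum of all the `H¹(C_i)` and `M^{μ_i}` is the product `G` of
the groups `USp(2 g_i) × S_{d_i}`, and the integral over `G` of the character of `W_x` is `1` if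
all `t_i` are `0` or `1`, and `0` otherwise.  We study the question for the varieties `X` and even `i`
for which `V = H^i(X)(i/2)` is built from these representations; the Sato–Tate group of `X` is a quotient
of `G`, and the test functions are the linear combinations `φ = ∑ e_x tr(· | W_x)` of the characters of
the `W_x`.  For instance:

* `X` the Kummer surface of the Jacobian of `y² = f(x)`, `deg f = 6`, `i = 2`:
  `V = Λ²H¹(C)(1) ⊕ 1 ⊕ M^{(2, 4)}`, the Sato–Tate group is `SO(5) × S_6` and has `720` components, and
  the test functions are the tensor products of the representations `1`, `V_5`, `Λ²V_5` of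
  `SO(5)` with all the irreducible representations of `S_6`: this includes the trace on `V` times any
  function of the component;
* the Kummer varieties for all genera, the resolutions of `y² = f_1(x_1) f_2(x_2)`;
* `X = C_1 × … × C_r` and all even `i`: the trace on `V` and its square, times all class functions of the
  Galois group of `∏ f_i`.

The theorem says that for almost all `c` the sums of these test functions over the classes `x_p` are as
predicted, jointly for all `φ` and all lengths: apart from a set of proportion `O(A⁻²)` of the `c` with
coefficients at most `H`, the sum of `w_p φ(x_p)` over the good primes `p < T` is `∫ φ ∑_{p < T} w_p` with an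
error of at most `A ‖φ‖ T^{1/2} (log T)²`, `‖φ‖ = ∑ |e_x|`, for all `φ` and all `T ≤ (H/8)^{1/4}` at the
same time, for arbitrary weights `|w_p| ≤ 1`.  Consequently, for `η > 0` there is a `T₀` such that for
all `H`, apart from a proportion `η` of the `c`, the mean of `φ` over the `x_p` with `p < T` good is within
`η ‖φ‖` of `∫ φ`, for all `φ` and all `T` with `T₀ ≤ T ≤ (H/8)^{1/4}`.

For a fixed `X` the equidistribution on the component group `S_6` is the theorem of Chebotarev; here it is
joint with the traces of the connected component, for which nothing is known for a fixed general `X`.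

The proof: the values of a random polynomial modulo `p` at a few points of the projective line over
`𝔽_p`, and over the field with `p²` elements, are independent, which gives the second and the fourth
moments of the traces on `H¹`; the joint means of the traces and of the numbers of the factorizations of
a given type follow by summing over the factors, as the correlations of the quadratic character of the
values of monic polynomials vanish in degree at least two and are `-1` in degree one; and the
maximal inequality for functions of the reduction of an integral vector
(`Pool.Agent.Y722.ST.effective_weights`) of the library.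
-/

set_option autoImplicit false

namespace Pool.Agent.Results.MP_32ceeb_nt.DisconnectedGroups

open Pool.Agent.H36.KM

/-- **Equidistribution on average, for the characters of the `W_x`.** -/
theorem result (r : ℕ) (d : Fin r → ℕ) (hd : ∀ i, 4 ≤ d i) :
    (∃ C : ℝ, 0 < C ∧ ∀ w : ℕ → ℝ, (∀ p, |w p| ≤ 1) → ∀ (H : ℕ) (A : ℝ), 0 < A →
      ({c : (Σ i, Fin (d i + 1)) → ℤ | (∀ j, |c j| ≤ H) ∧ ∃ (e : Idx r d → ℝ) (T : ℕ), 2 ≤ T ∧
        8 * T ^ 4 ≤ H ∧ A * norm1 e * (√T * Real.log T ^ 2) <
          |sumW e c w T - mult e * piSum w T|}.ncard : ℝ) ≤
        C / A ^ 2 * (2 * H + 1 : ℝ) ^ Fintype.card (Σ i, Fin (d i + 1))) ∧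
    (∀ η : ℝ, 0 < η → ∃ T₀ : ℕ, ∀ H : ℕ,
      ({c : (Σ i, Fin (d i + 1)) → ℤ | (∀ j, |c j| ≤ H) ∧ ∃ (e : Idx r d → ℝ) (T : ℕ), T₀ ≤ T ∧
        8 * T ^ 4 ≤ H ∧
        η * norm1 e < |sumW e c (fun _ => 1) T / numGood c T - mult e|}.ncard : ℝ) ≤
        η * (2 * H + 1 : ℝ) ^ Fintype.card (Σ i, Fin (d i + 1))) :=
  ⟨lawW hd, fun η hη => limW hd η hη⟩

end Pool.Agent.Results.MP_32ceeb_nt.DisconnectedGroups
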